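import Pool.Agent.H14R3.KK.Defs
import Pool.Agent.H14R3.KK.S.PAIRS
import Pool.Agent.H14R3.KK.S.ESYM

/-! Task COUNT of project KK (MP_d47e08_pr) (helper847). -/

set_option autoImplicit false
open MeasureTheory ProbabilityTheory Filter Topology

namespace KK14

theorem COUNTx.prod_eq {n : ℕ} (B V : Finset (Fin n)) (y : ℝ) :
    y ^ (B ∩ V).card = ∏ x ∈ B, (if x ∈ V then y else 1) := by
  rw [Finset.prod_ite, Finset.prod_const, Finset.prod_const_one, mul_one,
    Finset.filter_mem_eq_inter]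

theorem COUNTx.sum_le {n : ℕ} (U V : Finset (Fin n)) (y : ℝ) (hy : 0 ≤ y) :
    ∑ x ∈ U, (if x ∈ V then y else 1) ≤ (n : ℝ) + y * V.card := by
  calc ∑ x ∈ U, (if x ∈ V then y else 1) ≤ ∑ x : Fin n, (if x ∈ V then y else 1) :=
        Finset.sum_le_sum_of_subset_of_nonneg (Finset.subset_univ _) fun x _ _ => by
          split_ifs
          · exact hy
          · exact zero_le_one
    _ ≤ ∑ x : Fin n, (1 + if x ∈ V then y else 0) := by
        refine Finset.sum_le_sum fun x _ => ?_
        split_ifs <;> linarith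
    _ = (n : ℝ) + y * V.card := by
        rw [Finset.sum_add_distrib, ← Finset.sum_filter, Finset.sum_const, Finset.sum_const]
        simp [mul_comm]

theorem COUNT (n q l : ℕ) (I : Sub n l) (V : Finset (Fin n)) (y : ℝ) (hy : 0 ≤ y) :
    (∑ K : Sub n l, if (symmDiff I.1 K.1).card = 2 * q then y ^ ((K.1 \ I.1) ∩ V).card else 0)
      ≤ (l.choose q : ℝ) * (((n : ℝ) + y * V.card) ^ q / q.factorial) := by
  have hw : ∀ x : Fin n, (0 : ℝ) ≤ if x ∈ V then y else 1 := fun x => by
    split_ifs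
    · exact hy
    · exact zero_le_one
  rw [PAIRS n q l I (fun K => y ^ ((K \ I.1) ∩ V).card)]
  have h1 : ∀ A ∈ I.1.powersetCard q, ∑ B ∈ (I.1ᶜ).powersetCard q,
      y ^ ((((I.1 \ A) ∪ B) \ I.1) ∩ V).card ≤ ((n : ℝ) + y * V.card) ^ q / q.factorial := by
    intro A _
    have h2 : ∑ B ∈ (I.1ᶜ).powersetCard q, y ^ ((((I.1 \ A) ∪ B) \ I.1) ∩ V).card =
        ∑ B ∈ (I.1ᶜ).powersetCard q, ∏ x ∈ B, (if x ∈ V then y else 1) := by
      refine Finset.sum_congr rfl fun B hB => ?_
      rw [← COUNTx.prod_eq]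
      have hB' : B ⊆ I.1ᶜ := (Finset.mem_powersetCard.1 hB).1
      have h3 : ((I.1 \ A) ∪ B) \ I.1 = B := by
        ext x
        simp only [Finset.mem_sdiff, Finset.mem_union]
        constructor
        · rintro ⟨h | h, h'⟩
          · exact absurd h.1 h'
          · exact h
        · intro h
          exact ⟨Or.inr h, Finset.mem_compl.1 (hB' h)⟩
      rw [h3]
    rw [h2]
    refine (ESYM (I.1ᶜ) (fun x => if x ∈ V then y else 1) (fun x _ => hw x) q).trans ?_
    refine div_le_div_of_nonneg_right ?_ (by positivity)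
    exact pow_le_pow_left₀ (Finset.sum_nonneg fun x _ => hw x) (COUNTx.sum_le _ V y hy) q
  refine (Finset.sum_le_sum h1).trans (le_of_eq ?_)
  rw [Finset.sum_const, Finset.card_powersetCard, I.2, nsmul_eq_mul]

end KK14
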